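import Mathlib

namespace Pool.Agent.P.MP_270153_nt

/-- The truncated sum of (4k-1)^m (-1/2)_k^4 / k!^4 over 0 ≤ k ≤ N. -/
noncomputable def S (m N : ℕ) : ℚ :=
  ∑ k ∈ Finset.range (N + 1),
    (4 * (k : ℚ) - 1) ^ m * ((ascPochhammer ℚ k).eval (-1 / 2)) ^ 4 / (k.factorial : ℚ) ^ 4

/-- x ≡ y modulo p^n for rationals: x - y = p^n u / v with integers u, v and p not dividing v. -/
def Cong (x y : ℚ) (p n : ℕ) : Prop :=
  ∃ u v : ℤ, ¬ (p : ℤ) ∣ v ∧ x - y = (p : ℚ) ^ n * u / v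

end Pool.Agent.P.MP_270153_nt
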