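import Pool.Agent.P.MP_270153_nt.Defs

namespace Pool.Agent.P.MP_270153_nt

lemma cong_dvd (a b c : ℤ) (hb : b ≠ 0) (n : ℕ)
    (h : Cong ((a : ℚ) / b) (c : ℚ) 5 n) : (5 : ℤ) ^ n ∣ a - c * b := by
  obtain ⟨u, v, hv, h⟩ := h
  have hv0 : v ≠ 0 := by
    rintro rfl
    exact hv (dvd_zero _)
  have hv0' : (v : ℚ) ≠ 0 := by exact_mod_cast hv0
  have hb' : (b : ℚ) ≠ 0 := by exact_mod_cast hb
  have h2 : ((a - c * b) * v : ℤ) = 5 ^ n * (u * b) := by
    have : (((a - c * b) * v : ℤ) : ℚ) = ((5 ^ n * (u * b) : ℤ) : ℚ) := by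
      push_cast
      field_simp at h
      push_cast at h
      linear_combination h
    exact_mod_cast this
  have hp : Prime (5 : ℤ) := Int.prime_iff_natAbs_prime.mpr (by norm_num)
  have hc : IsCoprime ((5 : ℤ) ^ n) v :=
    IsCoprime.pow_left ((Prime.coprime_iff_not_dvd hp).mpr (by exact_mod_cast hv))
  exact hc.dvd_of_dvd_mul_right ⟨_, h2⟩

lemma S3 : S 15 3 = ((4253267926632275 : ℤ) : ℚ) / ((65536 : ℤ) : ℚ) := by
  simp only [S, Finset.sum_range_succ, Finset.sum_range_zero, ascPochhammer_succ_eval,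
    ascPochhammer_zero, Polynomial.eval_one, Nat.factorial]
  norm_num

lemma S4 : S 15 4 = ((291105066915522907775 : ℤ) : ℚ) / ((268435456 : ℤ) : ℚ) := by
  simp only [S, Finset.sum_range_succ, Finset.sum_range_zero, ascPochhammer_succ_eval,
    ascPochhammer_zero, Polynomial.eval_one, Nat.factorial]
  norm_num

lemma S13 : S 15 13 = ((550913570411112398834505539848007248519998875 : ℤ) : ℚ) /
    ((4951760157141521099596496896 : ℤ) : ℚ) := by
  simp only [S, Finset.sum_range_succ, Finset.sum_range_zero, ascPochhammer_succ_eval,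
    ascPochhammer_zero, Polynomial.eval_one, Nat.factorial]
  norm_num

lemma S24 : S 15 24 =
    ((1165830404355429735343155712010630113080560947099026833173945084427458101375 : ℤ) : ℚ) /
    ((24519928653854221733733552434404946937899825954937634816 : ℤ) : ℚ) := by
  simp only [S, Finset.sum_range_succ, Finset.sum_range_zero, ascPochhammer_succ_eval,
    ascPochhammer_zero, Polynomial.eval_one, Nat.factorial]
  norm_num

theorem main : ∃ m : ℕ, Odd m ∧ ¬ ∃ d : ℤ, ∀ p r : ℕ, p.Prime → 5 ≤ p → 1 ≤ r →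
    (Cong (S m ((p ^ r + 1) / 2)) ((d : ℚ) * (p : ℚ) ^ r) p (r + 3) ∨
      Cong (S m (p ^ r - 1)) ((d : ℚ) * (p : ℚ) ^ r) p (r + 3)) := by
  refine ⟨15, by decide, ?_⟩
  rintro ⟨d, hd⟩
  have h1 := hd 5 1 (by norm_num) le_rfl le_rfl
  have h2 := hd 5 2 (by norm_num) le_rfl (by norm_num)
  have e1 : ((d : ℚ) * ((5 : ℕ) : ℚ) ^ 1) = ((d * 5 : ℤ) : ℚ) := by push_cast; ring
  have e2 : ((d : ℚ) * ((5 : ℕ) : ℚ) ^ 2) = ((d * 25 : ℤ) : ℚ) := by push_cast; ring
  rw [e1] at h1
  rw [e2] at h2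
  norm_num only at h1 h2
  have a1 : d % 125 = 30 := by
    rcases h1 with h | h
    · rw [S3] at h
      have := cong_dvd _ _ _ (by norm_num) _ h
      omega
    · rw [S4] at h
      have := cong_dvd _ _ _ (by norm_num) _ h
      omega
  have a2 : d % 125 = 105 := by
    rcases h2 with h | h
    · rw [S13] at h
      have := cong_dvd _ _ _ (by norm_num) _ h
      omega
    · rw [S24] at h
      have := cong_dvd _ _ _ (by norm_num) _ h
      omega
  omega

end Pool.Agent.P.MP_270153_nt
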