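import Pool.Agent.P.MP_270153_nt.Defs

/-! Algebra: an integral basis of odd polynomials in which the sums telescope. -/

namespace Pool.Agent.P.MP_270153_nt.Pos
open Finset

variable {K : Type*} [Field K] [CharZero K]

/-- the hypergeometric term -/
def tt (K : Type*) [Field K] (k : ℕ) : K :=
  (∏ i ∈ range k, (-1 / 2 + (i : K))) ^ 4 / (k.factorial : K) ^ 4

def CC (n : ℕ) (x : K) : K := ∏ i ∈ range n, (x ^ 2 - (4 * (i : K) + 3) ^ 2)

def PP (n : ℕ) (x : K) : K := x * (x ^ 2 - 1) * CC n x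

def QQ (n : ℕ) (y : K) : K := ∏ i ∈ range n, (y ^ 2 - (4 * (i : K) + 1) ^ 2)

/-- odd double factorial -/
def DD (n : ℕ) : ℕ := ∏ i ∈ range n, (2 * i + 1)

/-- value of the reduction functional on `PP (n + 1)` -/
def ph (n : ℕ) : ℤ := (-1) ^ n * (2 * n + 1) * n.centralBinom * (DD (n + 1)) ^ 2

def TT (f : K → K) (N : ℕ) : K := ∑ k ∈ range (N + 1), f (4 * k - 1) * tt K k

def BB (K : Type*) [Field K] (N : ℕ) : K := (4 * N - 2) ^ 4 * tt K N

theorem DD_succ (n : ℕ) : DD (n + 1) = DD n * (2 * n + 1) := prod_range_succ _ _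

theorem DD_pos (n : ℕ) : 0 < DD n := prod_pos fun _ _ => Nat.succ_pos _

theorem DD_ne (n : ℕ) : (DD n : K) ≠ 0 := Nat.cast_ne_zero.2 (DD_pos n).ne'

theorem fac_ne (n : ℕ) : (n.factorial : K) ≠ 0 := Nat.cast_ne_zero.2 n.factorial_ne_zero

theorem succ_ne (n : ℕ) : (n : K) + 1 ≠ 0 := Nat.cast_add_one_ne_zero n

theorem cbD (n : ℕ) : n.centralBinom * n.factorial = 2 ^ n * DD n := by
  induction n with
  | zero => simp [DD]
  | succ n ih =>
    have := Nat.succ_mul_centralBinom_succ n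
    rw [Nat.factorial_succ, DD_succ, pow_succ]
    calc (n + 1).centralBinom * ((n + 1) * n.factorial)
        = ((n + 1) * (n + 1).centralBinom) * n.factorial := by ring
      _ = 2 * (2 * n + 1) * (n.centralBinom * n.factorial) := by rw [this]; ring
      _ = _ := by rw [ih]; ring

theorem ph_eq (n : ℕ) : (ph n : K) = (-2) ^ n * (DD (n + 1) : K) ^ 3 / n.factorial := by
  have h : (n.centralBinom : K) * n.factorial = 2 ^ n * DD n := by exact_mod_cast cbD n
  rw [eq_div_iff (fac_ne n), ph, neg_pow (2 : K), DD_succ]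
  push_cast
  linear_combination ((-1) ^ n * (2 * (n : K) + 1) ^ 3 * (DD n : K) ^ 2) * h

theorem ph_ne (n : ℕ) : (ph n : K) ≠ 0 := by
  rw [ph_eq]
  exact div_ne_zero (mul_ne_zero (pow_ne_zero _ (by norm_num)) (pow_ne_zero _ (DD_ne _))) (fac_ne n)

theorem ph_zero : ph 0 = 1 := by simp [ph, DD]

theorem ph_succ (n : ℕ) : ((n : K) + 1) * ph (n + 1) = -2 * (2 * n + 3) ^ 3 * ph n := by
  have h1 := fac_ne (K := K) n
  have h2 := succ_ne (K := K) n
  rw [ph_eq, ph_eq, DD_succ (n + 1), Nat.factorial_succ]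
  push_cast
  field_simp
  ring

theorem tt_succ (k : ℕ) : (4 * (k : K) + 4) ^ 4 * tt K (k + 1) = BB K k := by
  have h1 := fac_ne (K := K) k
  have h2 := succ_ne (K := K) k
  rw [BB, tt, tt, prod_range_succ, Nat.factorial_succ]
  push_cast
  field_simp
  ring

theorem tt_eq (k : ℕ) :
    tt K (k + 1) = (DD k : K) ^ 4 / (16 ^ (k + 1) * ((k + 1).factorial : K) ^ 4) := by
  have h : ∀ k : ℕ, ∏ i ∈ range (k + 1), (-1 / 2 + (i : K)) = -(DD k : K) / 2 ^ (k + 1) := by
    intro k
    induction k with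
    | zero => simp [DD]
    | succ k ih =>
      rw [prod_range_succ, ih, DD_succ]
      push_cast
      field_simp
      ring
  have h2 : (16 : K) ^ (k + 1) = (2 ^ (k + 1)) ^ 4 := by
    rw [← pow_mul, mul_comm, pow_mul]; norm_num
  rw [tt, h, h2, div_pow, div_div]
  congr 1
  ring

omit [CharZero K] in
theorem TT_succ (f : K → K) (N : ℕ) :
    TT f (N + 1) = TT f N + f (4 * ((N + 1 : ℕ) : K) - 1) * tt K (N + 1) := sum_range_succ _ _

theorem tele (Q : K → K) (N : ℕ) :
    TT (fun x => Q (x + 2) * (x - 1) ^ 4 - Q (x - 2) * (x + 1) ^ 4) N = Q (4 * N + 1) * BB K N := by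
  induction N with
  | zero => simp [TT, BB]; norm_num; ring
  | succ N ih =>
    rw [TT_succ, ih, ← tt_succ, BB]
    push_cast
    rw [show 4 * ((N : K) + 1) - 1 + 2 = 4 * (N + 1) + 1 by ring,
      show 4 * ((N : K) + 1) - 1 - 2 = 4 * N + 1 by ring]
    ring

omit [CharZero K] in
theorem QQ_add (n : ℕ) (x : K) : QQ (n + 1) (x + 2) = (x + 1) * (x + 4 * n + 3) * CC n x := by
  induction n with
  | zero => simp [QQ, CC]; ring
  | succ n ih =>
    rw [QQ, prod_range_succ, ← QQ, ih, CC.eq_1 (n + 1), prod_range_succ, ← CC]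
    push_cast
    ring

omit [CharZero K] in
theorem QQ_sub (n : ℕ) (x : K) : QQ (n + 1) (x - 2) = (x - 1) * (x - 4 * n - 3) * CC n x := by
  induction n with
  | zero => simp [QQ, CC]; ring
  | succ n ih =>
    rw [QQ, prod_range_succ, ← QQ, ih, CC.eq_1 (n + 1), prod_range_succ, ← CC]
    push_cast
    ring

omit [CharZero K] in
theorem PP_succ (n : ℕ) (x : K) : PP (n + 1) x = PP n x * (x ^ 2 - (4 * (n : K) + 3) ^ 2) := by
  rw [PP, PP, CC, prod_range_succ, ← CC]; ring

omit [CharZero K] in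
theorem TT_lin (a b : K) (f g : K → K) (N : ℕ) :
    TT (fun x => a * f x + b * g x) N = a * TT f N + b * TT g N := by
  simp only [TT, mul_sum, ← sum_add_distrib]
  exact sum_congr rfl fun _ _ => by ring

theorem step (n N : ℕ) : 8 * (n : K) * TT (PP (n + 1)) N + 16 * (2 * n + 1) ^ 3 * TT (PP n) N =
    QQ (n + 1) (4 * (N : K) + 1) * BB K N := by
  rw [← tele, ← TT_lin]
  congr 1
  funext x
  rw [QQ_add, QQ_sub, PP_succ, PP]
  ring

theorem base (N : ℕ) : -8 * TT (PP 0) N + -16 * TT (fun x : K => x) N = BB K N := by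
  have := tele (K := K) (fun _ => 1) N
  rw [one_mul] at this
  rw [← this, ← TT_lin]
  congr 1
  funext x
  simp only [PP, CC, prod_range_zero]
  ring

theorem chain (n N : ℕ) : TT (PP (n + 1)) N = (ph n : K) * (TT (PP 1) N +
    ∑ l ∈ range n, QQ (l + 2) (4 * (N : K) + 1) * BB K N / (8 * (l + 1) * ph (l + 1))) := by
  induction n with
  | zero => simp [ph_zero]
  | succ n ih =>
    have h1 := step (K := K) (n + 1) N
    have h2 := ph_succ (K := K) n
    have h3 := ph_ne (K := K) (n + 1)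
    have h4 := succ_ne (K := K) n
    rw [sum_range_succ, ← add_assoc]
    rw [ih] at h1
    generalize TT (PP 1) N + ∑ l ∈ range n,
      QQ (l + 2) (4 * (N : K) + 1) * BB K N / (8 * (l + 1) * ph (l + 1)) = A at h1 ⊢
    rw [← h1]
    push_cast
    field_simp
    linear_combination (-8 * A) * h2

omit [CharZero K] in
theorem PP_zero {n k : ℕ} (h : k ≤ n) : PP n (4 * (k : K) - 1) = 0 := by
  rcases k with _ | k
  · simp [PP]
  · rw [PP, CC, prod_eq_zero (mem_range.2 h) (by push_cast; ring), mul_zero]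

omit [CharZero K] in
theorem PP_val (n : ℕ) : ∀ j k : ℕ, k = n + j →
    PP n (4 * ((k + 1 : ℕ) : K) - 1) * j.factorial * DD k =
      (4 * ((k + 1 : ℕ) : K) - 1) * 8 ^ (n + 1) * (k + 1).factorial * DD (k + 1 + n) := by
  induction n with
  | zero =>
    intro j k h
    rw [zero_add] at h
    subst h
    simp only [PP, CC, prod_range_zero, add_zero, DD_succ, Nat.factorial_succ]
    push_cast
    ring
  | succ n ih =>
    intro j k h
    have h1 := ih (j + 1) k (by omega)
    have h2 : (k : K) = n + 1 + j := by rw [h]; push_cast; ring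
    rw [PP_succ, ← add_assoc (k + 1), DD_succ (k + 1 + n)]
    rw [Nat.factorial_succ j] at h1
    push_cast at h1 ⊢
    rw [h2] at h1 ⊢
    linear_combination (8 * (2 * ((n : K) + 1 + j + 1 + n) + 1)) * h1

/-- the tail terms without the factor `4k - 1` -/
def VV (K : Type*) [Field K] (n j : ℕ) : K :=
  8 ^ (n + 2) * DD (2 * n + 3 + j) * (DD (n + 1 + j) : K) ^ 3 /
    (16 ^ (n + 2 + j) * j.factorial * ((n + 2 + j).factorial : K) ^ 3 * ph n)

theorem tail (n J : ℕ) : TT (PP (n + 1)) (n + 1 + J) =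
    ph n * ∑ j ∈ range J, (4 * ((n + 2 + j : ℕ) : K) - 1) * VV K n j := by
  induction J with
  | zero =>
    rw [sum_range_zero, mul_zero, TT]
    exact sum_eq_zero fun k hk => by rw [PP_zero (by have := mem_range.1 hk; omega), zero_mul]
  | succ J ih =>
    rw [← add_assoc, TT_succ, ih, sum_range_succ, mul_add]
    congr 1
    have h1 := PP_val (K := K) (n + 1) J (n + 1 + J) rfl
    have h2 := ph_ne (K := K) n
    have h3 := fac_ne (K := K) J
    have h4 := fac_ne (K := K) (n + 1 + J + 1)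
    have h5 := DD_ne (K := K) (n + 1 + J)
    rw [tt_eq, VV, show n + 2 + J = n + 1 + J + 1 by ring,
      show 2 * n + 3 + J = n + 1 + J + 1 + (n + 1) by ring,
      eq_div_of_mul_eq h3 (eq_div_of_mul_eq h5 h1)]
    field_simp

theorem VV_succ (n j : ℕ) : VV K n (j + 1) * (2 * ((j : K) + 1) * (2 * n + 3 + (2 * j + 3)) ^ 3) =
    VV K n j * ((2 * (2 * n + 3) + (2 * j + 1)) * (2 * n + 3 + 2 * j) ^ 3) := by
  have h2 := ph_ne (K := K) n
  have h3 := fac_ne (K := K) j
  have h4 := fac_ne (K := K) (n + 2 + j)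
  have h5 := succ_ne (K := K) j
  have h6 := succ_ne (K := K) (n + 2 + j)
  rw [VV, VV, ← add_assoc, ← add_assoc, ← add_assoc, DD_succ, DD_succ, Nat.factorial_succ,
    Nat.factorial_succ]
  push_cast at h6 ⊢
  field_simp
  ring

omit [CharZero K] in
theorem DD_mid (q : K) (j : ℕ) : ∀ a : ℕ, q = 2 * (a + j) + 1 →
    (DD (a + 2 * j + 1) : K) = DD a * q * ∏ i ∈ range j, (q ^ 2 - 4 * ((i : K) + 1) ^ 2) := by
  induction j with
  | zero => intro a h; simp [DD_succ, h]
  | succ j ih =>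
    intro a h
    have h1 := ih (a + 1) (by rw [h]; push_cast; ring)
    rw [show a + 2 * (j + 1) + 1 = a + 1 + 2 * j + 1 + 1 by ring, DD_succ, prod_range_succ]
    push_cast
    rw [h1, DD_succ, h]
    push_cast
    ring

theorem VV_zero (n : ℕ) (q : K) (hq : q = 2 * n + 3) : VV K n 0 * ((1 - q) * (1 + q) ^ 3) =
    16 * q * ∏ i ∈ range (n + 1), (1 - q ^ 2 / (4 * ((i : K) + 1) ^ 2)) := by
  have h1 := DD_mid q (n + 1) 0 (by rw [hq]; push_cast; ring)
  have h2 : ∀ m : ℕ, ∏ i ∈ range m, (q ^ 2 - 4 * ((i : K) + 1) ^ 2) =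
      (-4) ^ m * (m.factorial : K) ^ 2 * ∏ i ∈ range m, (1 - q ^ 2 / (4 * ((i : K) + 1) ^ 2)) := by
    intro m
    induction m with
    | zero => simp
    | succ m ih =>
      have := succ_ne (K := K) m
      rw [prod_range_succ, prod_range_succ, ih, Nat.factorial_succ]
      push_cast
      field_simp
      ring
  have h3 := fac_ne (K := K) n
  have h4 := DD_ne (K := K) (n + 1)
  have h5 := succ_ne (K := K) n
  have h6 := succ_ne (K := K) (n + 1)
  have h7 : (16 : K) ^ n * (-2) ^ n = 8 ^ n * (-4) ^ n := by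
    rw [← mul_pow, ← mul_pow]; norm_num
  have h8 : (16 : K) ^ n * (-2) ^ n ≠ 0 :=
    mul_ne_zero (pow_ne_zero _ (by norm_num)) (pow_ne_zero _ (by norm_num))
  rw [h2, show 0 + 2 * (n + 1) + 1 = 2 * n + 3 + 0 by ring] at h1
  rw [VV, h1, ph_eq, add_zero, add_zero, Nat.factorial_succ (n + 1), Nat.factorial_succ n]
  generalize ∏ i ∈ range (n + 1), (1 - q ^ 2 / (4 * ((i : K) + 1) ^ 2)) = A
  have h9 : (8 : K) ^ (n + 2) = 64 * (16 ^ n * (-2) ^ n) / (-4) ^ n := by
    rw [h7]; field_simp; ring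
  rw [h9, hq]
  push_cast at h6 ⊢
  simp only [DD, prod_range_zero, Nat.factorial_zero, Nat.cast_one] at h4 ⊢
  field_simp
  ring

end Pool.Agent.P.MP_270153_nt.Pos
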