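import Pool.Agent.P.MP_270153_nt.PosA

/-! Norm estimates in the p-adic field. -/

namespace Pool.Agent.P.MP_270153_nt.Pos
open Finset IsUltrametricDist

variable {p : ℕ} [hp : Fact p.Prime] {s : ℕ}

/-- the norm of `p` -/
noncomputable def rh (p : ℕ) : ℝ := (p : ℝ)⁻¹

theorem rh_pos : 0 < rh p := inv_pos.2 (Nat.cast_pos.2 hp.out.pos)

theorem rh_lt : rh p < 1 := inv_lt_one_of_one_lt₀ (Nat.one_lt_cast.2 hp.out.one_lt)

theorem rh_anti {a b : ℕ} (h : a ≤ b) : rh p ^ b ≤ rh p ^ a :=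
  pow_le_pow_of_le_one rh_pos.le rh_lt.le h

theorem nrm_nat {a : ℕ} (ha : a ≠ 0) : ‖(a : ℚ_[p])‖ = rh p ^ padicValNat p a := by
  rw [Padic.norm_eq_zpow_neg_valuation (Nat.cast_ne_zero.2 ha), Padic.valuation_natCast, rh,
    inv_pow, zpow_neg, zpow_natCast]

theorem nrm_q (r : ℕ) : ‖(p : ℚ_[p]) ^ r‖ = rh p ^ r := by
  rw [norm_pow, Padic.norm_p, rh]

theorem nat_le (a : ℕ) : ‖(a : ℚ_[p])‖ ≤ 1 := norm_natCast_le_one _ a

theorem small {a : ℕ} (h0 : a ≠ 0) (h : a < p ^ (s + 1)) : rh p ^ s ≤ ‖(a : ℚ_[p])‖ := by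
  rw [nrm_nat h0]
  refine rh_anti (Nat.lt_succ_iff.1 ?_)
  exact (Nat.pow_lt_pow_iff_right hp.out.one_lt).1
    ((Nat.le_of_dvd (Nat.pos_of_ne_zero h0) pow_padicValNat_dvd).trans_lt h)

theorem unit {a : ℕ} (h0 : a ≠ 0) (h : a < p) : ‖(a : ℚ_[p])‖ = 1 :=
  le_antisymm (nat_le a) (by simpa using small (s := 0) h0 (by simpa using h))

theorem n2 (h5 : 5 ≤ p) : ‖(2 : ℚ_[p])‖ = 1 := by
  simpa using unit (p := p) (a := 2) (by norm_num) (by omega)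

theorem n3 (h5 : 5 ≤ p) : ‖(3 : ℚ_[p])‖ = 1 := by
  simpa using unit (p := p) (a := 3) (by norm_num) (by omega)

theorem n2p (h5 : 5 ≤ p) {c : ℚ_[p]} (k : ℕ) (h : c = 2 ^ k) : ‖c‖ = 1 := by
  rw [h, norm_pow, n2 h5, one_pow]

theorem nadd {x y : ℚ_[p]} {c : ℝ} (hx : ‖x‖ ≤ c) (hy : ‖y‖ ≤ c) : ‖x + y‖ ≤ c :=
  (norm_add_le_max x y).trans (max_le hx hy)

theorem nsub {x y : ℚ_[p]} {c : ℝ} (hx : ‖x‖ ≤ c) (hy : ‖y‖ ≤ c) : ‖x - y‖ ≤ c := by
  rw [sub_eq_add_neg]; exact nadd hx (by rwa [norm_neg])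

theorem nmul {x y : ℚ_[p]} {c : ℝ} (hx : ‖x‖ ≤ 1) (hy : ‖y‖ ≤ c) : ‖x * y‖ ≤ c := by
  rw [norm_mul]; exact (mul_le_of_le_one_left (norm_nonneg _) hx).trans hy

theorem shift {y : ℚ_[p]} {a : ℕ} (hy : ‖y‖ ≤ rh p ^ (s + 1)) (h0 : a ≠ 0)
    (h : a < p ^ (s + 1)) : ‖y + a‖ = ‖(a : ℚ_[p])‖ := by
  refine Padic.norm_eq_of_norm_sub_lt_right ?_
  rw [add_sub_cancel_right]
  exact (hy.trans_lt (pow_lt_pow_right_of_lt_one₀ rh_pos rh_lt s.lt_succ_self)).trans_le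
    (small h0 h)

theorem nAP {a : ℚ_[p]} (ha : ‖a‖ ≤ 1) (l : ℕ) :
    ‖∏ i ∈ range l, (a + i)‖ ≤ ‖(l.factorial : ℚ_[p])‖ := by
  obtain ⟨b, rfl⟩ : ∃ b : ℤ_[p], (b : ℚ_[p]) = a := ⟨⟨a, ha⟩, rfl⟩
  have h := PadicInt.norm_ascPochhammer_le l b
  have h2 : ∀ l : ℕ, (((ascPochhammer ℤ_[p] l).eval b : ℤ_[p]) : ℚ_[p]) =
      ∏ i ∈ range l, ((b : ℚ_[p]) + i) := by
    intro l
    induction l with
    | zero => simp
    | succ l ih => rw [ascPochhammer_succ_eval, prod_range_succ, ← ih]; simp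
  rw [PadicInt.norm_def, PadicInt.norm_def, h2] at h
  simpa using h

theorem nhalf (h5 : 5 ≤ p) : ‖(1 / 2 : ℚ_[p])‖ ≤ 1 := by rw [norm_div, n2 h5]; simp

theorem tt_le (h5 : 5 ≤ p) (k : ℕ) : ‖tt ℚ_[p] k‖ ≤ 1 := by
  have h := nAP (a := (-1 / 2 : ℚ_[p])) (by rw [neg_div, norm_neg]; exact nhalf h5) k
  rw [tt, ← div_pow, norm_pow, norm_div]
  exact pow_le_one₀ (by positivity) (div_le_one_of_le₀ h (norm_nonneg _))

theorem QQ_le (h5 : 5 ≤ p) (l N : ℕ) :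
    ‖QQ l (4 * (N : ℚ_[p]) + 1)‖ ≤ ‖(l.factorial : ℚ_[p])‖ ^ 2 := by
  have h : QQ l (4 * (N : ℚ_[p]) + 1) = (-16) ^ l * ((∏ i ∈ range l, (-(N : ℚ_[p]) + i)) *
      ∏ i ∈ range l, ((N : ℚ_[p]) + 1 / 2 + i)) := by
    rw [QQ, ← prod_mul_distrib, ← card_range l, ← prod_const, card_range, ← prod_mul_distrib]
    exact prod_congr rfl fun i _ => by ring
  rw [h, norm_mul, norm_pow, norm_neg, n2p h5 (c := 16) 4 (by norm_num), one_pow, one_mul,
    norm_mul, sq]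
  exact mul_le_mul (nAP (by rw [norm_neg]; exact nat_le N) l) (nAP (nadd (nat_le N) (nhalf h5)) l)
    (norm_nonneg _) (norm_nonneg _)

theorem DD_add (h5 : 5 ≤ p) (l A : ℕ) :
    ‖(DD (l + A) : ℚ_[p])‖ ≤ ‖(DD l : ℚ_[p])‖ * ‖(A.factorial : ℚ_[p])‖ := by
  have h : (DD (l + A) : ℚ_[p]) = DD l * (2 ^ A * ∏ i ∈ range A, ((l : ℚ_[p]) + 1 / 2 + i)) := by
    induction A with
    | zero => simp
    | succ A ih => rw [← add_assoc, DD_succ, prod_range_succ]; push_cast; rw [ih]; ring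
  rw [h, norm_mul, norm_mul, n2p h5 A rfl, one_mul]
  exact mul_le_mul_of_nonneg_left (nAP (nadd (nat_le l) (nhalf h5)) A) (norm_nonneg _)

theorem kummer (h5 : 5 ≤ p) {i : ℕ} (h : 2 * (i + 2) < p ^ (s + 1)) :
    padicValNat p ((i + 2) * (i + 1) * (i + 2).centralBinom) ≤ s := by
  have h1 := hp.out.one_lt
  have hlog : Nat.log p (i + 2 + (i + 2)) < s + 1 :=
    Nat.log_lt_of_lt_pow (by omega) (by omega)
  have hc := padicValNat_choose' (p := p) (n := i + 2) (k := i + 2) hlog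
  rw [← two_mul, ← Nat.centralBinom_eq_two_mul_choose] at hc
  rw [padicValNat.mul (by positivity) (Nat.centralBinom_ne_zero _), hc]
  set a := padicValNat p ((i + 2) * (i + 1))
  have hd : ∀ e, e ≤ a → p ^ e ∣ i + 2 ∨ p ^ e ∣ i + 1 := fun e he => by
    have h2 : p ^ e ∣ (i + 2) * (i + 1) := (pow_dvd_pow p he).trans pow_padicValNat_dvd
    by_cases h3 : p ∣ i + 2
    · left
      refine Nat.Coprime.dvd_of_dvd_mul_right (Nat.Coprime.pow_left _ ?_) h2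
      refine (Nat.Prime.coprime_iff_not_dvd hp.out).2 fun h4 => ?_
      have := Nat.le_of_dvd one_pos ((Nat.dvd_add_right h4).1 h3)
      omega
    · right
      exact Nat.Coprime.dvd_of_dvd_mul_left
        (Nat.Coprime.pow_left _ ((Nat.Prime.coprime_iff_not_dvd hp.out).2 h3)) h2
  have ha : a < s + 1 := by
    refine (Nat.pow_lt_pow_iff_right h1).1 ?_
    rcases hd a le_rfl with h2 | h2 <;> have := Nat.le_of_dvd (by omega) h2 <;> omega
  have hs : {e ∈ Ico 1 (s + 1) | p ^ e ≤ (i + 2) % p ^ e + (i + 2) % p ^ e} ⊆ Ioc a s := by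
    intro e he
    rw [mem_filter, mem_Ico] at he
    refine mem_Ioc.2 ⟨not_le.1 fun h2 => ?_, by omega⟩
    have h3 : p ≤ p ^ e := Nat.le_self_pow (by omega) p
    have h4 := he.2
    rcases hd e h2 with h6 | h6
    · rw [Nat.mod_eq_zero_of_dvd h6] at h4; omega
    · have : (i + 2) % p ^ e = 1 := by
        obtain ⟨c, hc⟩ := h6
        rw [show i + 2 = 1 + p ^ e * c by omega, Nat.add_mul_mod_self_left,
          Nat.mod_eq_of_lt (by omega)]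
      omega
  have := card_le_card hs
  rw [Nat.card_Ioc] at this
  omega

theorem DD_ge (h5 : 5 ≤ p) {i : ℕ} (h : 2 * (i + 2) < p ^ (s + 1)) :
    rh p ^ s * ‖(i.factorial : ℚ_[p])‖ ≤ ‖(DD (i + 2) : ℚ_[p])‖ := by
  have h1 : ((((i + 2) * (i + 1) * (i + 2).centralBinom : ℕ) : ℚ_[p])) * i.factorial =
      2 ^ (i + 2) * DD (i + 2) := by
    have := cbD (i + 2)
    rw [Nat.factorial_succ, Nat.factorial_succ] at this
    exact_mod_cast (by rw [← this]; ring :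
      (i + 2) * (i + 1) * (i + 2).centralBinom * i.factorial = 2 ^ (i + 2) * DD (i + 2))
  have h2 := congrArg norm h1
  rw [norm_mul, norm_mul, n2p h5 (i + 2) rfl, one_mul] at h2
  rw [← h2, nrm_nat (mul_ne_zero (by positivity) (Nat.centralBinom_ne_zero _))]
  exact mul_le_mul_of_nonneg_right (rh_anti (kummer h5 h)) (norm_nonneg _)

theorem cop_ge {i : ℕ} (h : 2 * i + 3 < p ^ (s + 1)) :
    rh p ^ s ≤ ‖((2 * i + 3 : ℕ) : ℚ_[p])‖ * ‖((i + 1 : ℕ) : ℚ_[p])‖ := by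
  have key : ∀ a : ℕ, ¬ p ∣ a → ‖(a : ℚ_[p])‖ = 1 := fun a ha => by
    rw [nrm_nat (by rintro rfl; exact ha (dvd_zero p)), padicValNat.eq_zero_of_not_dvd ha, pow_zero]
  by_cases h3 : p ∣ i + 1
  · rw [key (2 * i + 3) fun h4 => ?_, one_mul]
    · exact small (by omega) (by omega)
    · have h5 : p ∣ 2 * i + 2 := by simpa [mul_add] using h3.mul_left 2
      have := Nat.le_of_dvd one_pos ((Nat.dvd_add_right h5).1 h4)
      have := hp.out.one_lt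
      omega
  · rw [key _ h3, mul_one]
    exact small (by omega) h

theorem fac_ge (h5 : 5 ≤ p) {A B : ℕ} (h : 1 ≤ s ∨ A + B + 1 < p) :
    rh p ^ (3 * s) * (‖(A.factorial : ℚ_[p])‖ ^ 3 * ‖(B.factorial : ℚ_[p])‖ ^ 3) ≤
      ‖((A + B + 1).factorial : ℚ_[p])‖ := by
  rw [nrm_nat (Nat.factorial_ne_zero _), nrm_nat (Nat.factorial_ne_zero _),
    nrm_nat (Nat.factorial_ne_zero _), ← pow_mul, ← pow_mul, ← pow_add, ← pow_add]
  refine rh_anti ?_
  rcases h with h | h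
  · have k : ∀ n : ℕ, n / p ≤ padicValNat p n.factorial := fun n => by
      rw [← padicValNat_mul_div_factorial, padicValNat_factorial_mul]; omega
    have h1 := sub_one_mul_padicValNat_factorial_lt_of_ne_zero p (n := A + B + 1) (by omega)
    have h2 := Nat.lt_mul_div_succ A hp.out.pos
    have h3 := Nat.lt_mul_div_succ B hp.out.pos
    have h4 := k A
    have h6 := k B
    obtain ⟨c, rfl⟩ : ∃ c, p = c + 1 := ⟨p - 1, by omega⟩
    rw [Nat.add_sub_cancel] at h1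
    by_contra h7
    have h8 : 3 * (A / (c + 1) + B / (c + 1)) + 4 ≤ padicValNat (c + 1) (A + B + 1).factorial := by
      omega
    have h9 := Nat.mul_le_mul_left c h8
    nlinarith [Nat.zero_le (A / (c + 1)), Nat.zero_le (B / (c + 1))]
  · rw [padicValNat.eq_zero_of_not_dvd fun h2 => ?_]
    · omega
    · have := (Nat.Prime.dvd_factorial hp.out).1 h2
      omega

theorem fac_two (l : ℕ) : ‖((l + 2).factorial : ℚ_[p])‖ ≤ ‖(l.factorial : ℚ_[p])‖ := by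
  rw [Nat.factorial_succ, Nat.factorial_succ, Nat.cast_mul, Nat.cast_mul]
  exact nmul (nat_le _) (nmul (nat_le _) le_rfl)

theorem prod_lin {z : ℕ → ℚ_[p]} {c : ℝ} (hc : 0 ≤ c) (hc1 : c ≤ 1) (m : ℕ)
    (hz : ∀ i ∈ range m, ‖z i‖ ≤ c) :
    ‖∏ i ∈ range m, (1 - z i) - (1 - ∑ i ∈ range m, z i)‖ ≤ c ^ 2 := by
  induction m with
  | zero => simpa using sq_nonneg c
  | succ m ih =>
    have h1 : ∀ i ∈ range m, ‖z i‖ ≤ c := fun i hi =>
      hz i (mem_range.2 ((mem_range.1 hi).trans m.lt_succ_self))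
    have h2 := hz m (self_mem_range_succ m)
    have h3 := norm_sum_le_of_forall_le_of_nonneg hc h1
    rw [prod_range_succ, sum_range_succ]
    have h4 : (∏ i ∈ range m, (1 - z i)) * (1 - z m) - (1 - (∑ i ∈ range m, z i + z m)) =
        (1 - z m) * (∏ i ∈ range m, (1 - z i) - (1 - ∑ i ∈ range m, z i)) +
          z m * ∑ i ∈ range m, z i := by ring
    rw [h4]
    refine nadd (nmul (nsub (by simp) (h2.trans hc1)) (ih h1)) ?_
    rw [norm_mul, sq]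
    exact mul_le_mul h2 h3 (norm_nonneg _) hc

theorem refl_le {q : ℚ_[p]} (hq : ‖q‖ = rh p ^ (s + 1)) {a : ℕ} (h0 : a ≠ 0)
    (h : a < p ^ (s + 1)) : ‖q ^ 2 / (q - a) ^ 2 - q ^ 2 / (a : ℚ_[p]) ^ 2‖ ≤ rh p ^ 3 := by
  have h1 : ‖q - a‖ = ‖(a : ℚ_[p])‖ := by
    rw [← norm_neg, neg_sub, sub_eq_neg_add]
    exact shift (by rw [norm_neg, hq]) h0 h
  have h2 := small h0 h
  have h3 : 0 < ‖(a : ℚ_[p])‖ := (pow_pos rh_pos s).trans_le h2
  have h4 : (a : ℚ_[p]) ≠ 0 := norm_pos_iff.1 h3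
  have h5 : q - a ≠ 0 := norm_pos_iff.1 (h1 ▸ h3)
  have h6 : q ^ 2 / (q - a) ^ 2 - q ^ 2 / (a : ℚ_[p]) ^ 2 =
      q ^ 3 * (a - (q - a)) / ((q - a) ^ 2 * a ^ 2) := by
    field_simp
    ring
  have h7 : ‖(a : ℚ_[p]) - (q - a)‖ ≤ ‖(a : ℚ_[p])‖ := nsub le_rfl h1.le
  rw [h6, norm_div, norm_mul, norm_mul, norm_pow, norm_pow, norm_pow, h1, hq,
    div_le_iff₀ (by positivity)]
  have h8 := pow_le_pow_left₀ (pow_pos rh_pos s).le h2 3
  have h9 := (pow_pos (rh_pos (p := p)) 3).le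
  calc (rh p ^ (s + 1)) ^ 3 * ‖(a : ℚ_[p]) - (q - a)‖
      ≤ (rh p ^ (s + 1)) ^ 3 * ‖(a : ℚ_[p])‖ :=
        mul_le_mul_of_nonneg_left h7 (pow_pos (pow_pos rh_pos _) 3).le
    _ = rh p ^ 3 * ((rh p ^ s) ^ 3 * ‖(a : ℚ_[p])‖) := by ring
    _ ≤ rh p ^ 3 * (‖(a : ℚ_[p])‖ ^ 3 * ‖(a : ℚ_[p])‖) :=
        mul_le_mul_of_nonneg_left (mul_le_mul_of_nonneg_right h8 h3.le) h9
    _ = _ := by ring

theorem sum_two (f : ℕ → ℚ_[p]) (M : ℕ) :
    ∑ i ∈ range M, (f (i + 1) + f (2 * M + 1 - (i + 1))) =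
      ∑ i ∈ range M, (f (2 * (i + 1)) + f (2 * M + 1 - 2 * (i + 1))) := by
  have h1 : ∀ m, ∑ i ∈ range (m + m), f (i + 1) =
      ∑ i ∈ range m, f (2 * (i + 1)) + ∑ i ∈ range m, f (2 * i + 1) := by
    intro m
    induction m with
    | zero => simp
    | succ m ih =>
      rw [show m + 1 + (m + 1) = m + m + 1 + 1 by ring, sum_range_succ, sum_range_succ, ih,
        sum_range_succ, sum_range_succ, show m + m + 1 + 1 = 2 * (m + 1) by ring,
        show m + m + 1 = 2 * m + 1 by ring]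
      ring
  have h2 := h1 M
  rw [sum_range_add, ← sum_range_reflect (fun i => f (2 * i + 1)),
    ← sum_range_reflect (fun i => f (M + i + 1))] at h2
  rw [sum_add_distrib, sum_add_distrib]
  convert h2 using 3 with i hi i hi
  · have := mem_range.1 hi; congr 1; omega
  · have := mem_range.1 hi; congr 1; omega

theorem prod_one (h5 : 5 ≤ p) {M : ℕ} (hM : p ^ (s + 1) = 2 * M + 1) {q : ℚ_[p]}
    (hq : q = (p : ℚ_[p]) ^ (s + 1)) :
    ‖∏ i ∈ range M, (1 - q ^ 2 / (4 * ((i : ℚ_[p]) + 1) ^ 2)) - 1‖ ≤ rh p ^ 3 := by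
  have hn : ‖q‖ = rh p ^ (s + 1) := by rw [hq, nrm_q]
  have hq' : q = ((2 * M + 1 : ℕ) : ℚ_[p]) := by rw [hq, ← hM]; push_cast; rfl
  have h1 := prod_lin (z := fun i => q ^ 2 / (4 * ((i : ℚ_[p]) + 1) ^ 2)) (c := rh p ^ 2)
    (pow_pos rh_pos 2).le (pow_le_one₀ rh_pos.le rh_lt.le) M fun i hi => by
      have h2 := small (p := p) (s := s) (a := i + 1) (by omega) (by have := mem_range.1 hi; omega)
      push_cast at h2
      have h3 := (pow_pos (rh_pos (p := p)) s).trans_le h2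
      rw [norm_div, norm_mul, n2p h5 (c := 4) 2 (by norm_num), one_mul, norm_pow, norm_pow, hn,
        div_le_iff₀ (by positivity), ← mul_pow]
      rw [pow_succ' (rh p) s]
      exact pow_le_pow_left₀ (mul_pos (rh_pos (p := p)) (pow_pos (rh_pos (p := p)) s)).le
        (mul_le_mul_of_nonneg_left h2 (rh_pos (p := p)).le) 2
  have h2 := sum_two (fun a => q ^ 2 / (a : ℚ_[p]) ^ 2) M
  have h3 : 2 * 3 * ∑ i ∈ range M, q ^ 2 / (4 * ((i : ℚ_[p]) + 1) ^ 2) =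
      ∑ i ∈ range M, ((q ^ 2 / (q - (2 * (i + 1) : ℕ)) ^ 2 - q ^ 2 / ((2 * (i + 1) : ℕ) : ℚ_[p]) ^ 2)
        - (q ^ 2 / (q - (i + 1 : ℕ)) ^ 2 - q ^ 2 / ((i + 1 : ℕ) : ℚ_[p]) ^ 2)) := by
    rw [← sub_eq_zero, ← sum_sub_distrib] at h2
    rw [← sub_eq_zero, mul_sum, ← sum_sub_distrib, ← h2]
    refine sum_congr rfl fun i hi => ?_
    have h4 := mem_range.1 hi
    have h6 := succ_ne (K := ℚ_[p]) i
    rw [Nat.cast_sub (by omega), Nat.cast_sub (by omega), ← hq']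
    generalize q ^ 2 / (q - (2 * (i + 1) : ℕ)) ^ 2 = u
    generalize q ^ 2 / (q - (i + 1 : ℕ)) ^ 2 = w
    push_cast
    field_simp
    ring
  have h4 : ‖∑ i ∈ range M, q ^ 2 / (4 * ((i : ℚ_[p]) + 1) ^ 2)‖ ≤ rh p ^ 3 := by
    have h6 := congrArg norm h3
    rw [norm_mul, norm_mul, n2 h5, n3 h5, one_mul, one_mul] at h6
    rw [h6]
    refine norm_sum_le_of_forall_le_of_nonneg (pow_pos rh_pos 3).le fun i hi => ?_
    have := mem_range.1 hi
    exact nsub (refl_le hn (by omega) (by omega)) (refl_le hn (by omega) (by omega))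
  rw [← pow_mul] at h1
  have h6 := nsub (h1.trans (rh_anti (by norm_num : 3 ≤ 2 * 2))) h4
  convert h6 using 2
  ring

end Pool.Agent.P.MP_270153_nt.Pos
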