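import Pool.Agent.P.MP_270153_nt.PosB

/-! The two congruences. -/

namespace Pool.Agent.P.MP_270153_nt.Pos
open Finset IsUltrametricDist

variable {p : ℕ} [hp : Fact p.Prime] {s n : ℕ}

theorem fac_pos (a : ℕ) : 0 < ‖(a.factorial : ℚ_[p])‖ := norm_pos_iff.2 (fac_ne a)

theorem ph_nrm (h5 : 5 ≤ p) (a : ℕ) :
    ‖(ph a : ℚ_[p])‖ = ‖(DD (a + 1) : ℚ_[p])‖ ^ 3 / ‖(a.factorial : ℚ_[p])‖ := by
  rw [ph_eq, norm_div, norm_mul, norm_pow, norm_pow, norm_neg, n2 h5, one_pow, one_mul]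

theorem den_nrm (h5 : 5 ≤ p) (l : ℕ) : ‖(8 * ((l : ℚ_[p]) + 1) * ph (l + 1))‖ =
    ‖(DD (l + 2) : ℚ_[p])‖ ^ 3 / ‖(l.factorial : ℚ_[p])‖ := by
  have h1 := fac_pos (p := p) l
  have h2 : 0 < ‖(l : ℚ_[p]) + 1‖ := norm_pos_iff.2 (succ_ne l)
  rw [norm_mul, norm_mul, n2p h5 (c := 8) 3 (by norm_num), ph_nrm h5, Nat.factorial_succ]
  push_cast
  rw [norm_mul]
  field_simp

theorem num_le (h5 : 5 ≤ p) {N : ℕ} (hB : ‖BB ℚ_[p] N‖ ≤ rh p ^ (4 * (s + 1))) (l : ℕ) :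
    ‖QQ (l + 2) (4 * (N : ℚ_[p]) + 1) * BB ℚ_[p] N‖ ≤
      ‖(l.factorial : ℚ_[p])‖ ^ 2 * rh p ^ (4 * (s + 1)) := by
  rw [norm_mul]
  exact mul_le_mul ((QQ_le h5 _ N).trans (pow_le_pow_left₀ (norm_nonneg _) (fac_two l) 2)) hB
    (norm_nonneg _) (by positivity)

theorem termA (h5 : 5 ≤ p) {N : ℕ} (hB : ‖BB ℚ_[p] N‖ ≤ rh p ^ (4 * (s + 1))) {l : ℕ}
    (hl : 2 * (l + 2) < p ^ (s + 1)) :
    ‖QQ (l + 2) (4 * (N : ℚ_[p]) + 1) * BB ℚ_[p] N / (8 * (l + 1) * ph (l + 1))‖ ≤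
      rh p ^ (s + 4) := by
  have h1 := fac_pos (p := p) l
  have h0 := rh_pos (p := p)
  have h2 := pow_le_pow_left₀ (by positivity) (DD_ge h5 hl) 3
  have h3 : 0 < ‖(DD (l + 2) : ℚ_[p])‖ := norm_pos_iff.2 (DD_ne _)
  rw [norm_div, den_nrm h5, div_le_iff₀ (by positivity)]
  refine (num_le h5 hB l).trans ?_
  rw [← mul_div_assoc, le_div_iff₀ h1]
  calc _ = rh p ^ (s + 4) * (rh p ^ s * ‖(l.factorial : ℚ_[p])‖) ^ 3 := by ring
    _ ≤ _ := mul_le_mul_of_nonneg_left h2 (by positivity)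

theorem termB (h5 : 5 ≤ p) {N : ℕ} (hB : ‖BB ℚ_[p] N‖ ≤ rh p ^ (4 * (s + 1))) {l A : ℕ}
    (h : 1 ≤ s ∨ A + l + 1 < p) :
    ‖(ph (A + l + 1) : ℚ_[p]) *
      (QQ (l + 2) (4 * (N : ℚ_[p]) + 1) * BB ℚ_[p] N / (8 * (l + 1) * ph (l + 1)))‖ ≤
      rh p ^ (s + 4) := by
  have h1 := fac_pos (p := p) l
  have h1' := fac_pos (p := p) (A + l + 1)
  have h0 := rh_pos (p := p)
  have h2 := pow_le_pow_left₀ (norm_nonneg _) (DD_add h5 (l + 2) A) 3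
  have h3 : 0 < ‖(DD (l + 2) : ℚ_[p])‖ := norm_pos_iff.2 (DD_ne _)
  have h4 := fac_ge h5 h
  have h6 := num_le h5 hB l
  rw [norm_mul, norm_div, den_nrm h5, ph_nrm h5, show A + l + 1 + 1 = l + 2 + A by ring,
    div_mul_div_comm, div_le_iff₀ (by positivity)]
  calc _ ≤ (‖(DD (l + 2) : ℚ_[p])‖ * ‖(A.factorial : ℚ_[p])‖) ^ 3 *
        (‖(l.factorial : ℚ_[p])‖ ^ 2 * rh p ^ (4 * (s + 1))) :=
        mul_le_mul h2 h6 (norm_nonneg _) (by positivity)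
    _ = rh p ^ (s + 4) * ((rh p ^ (3 * s) * (‖(A.factorial : ℚ_[p])‖ ^ 3 *
        ‖(l.factorial : ℚ_[p])‖ ^ 3)) * (‖(DD (l + 2) : ℚ_[p])‖ ^ 3 / ‖(l.factorial : ℚ_[p])‖)) := by
        field_simp
        ring
    _ ≤ _ := mul_le_mul_of_nonneg_left (mul_le_mul_of_nonneg_right h4 (by positivity))
        (by positivity)

theorem head (h5 : 5 ≤ p) (hq : p ^ (s + 1) = 2 * n + 3) :
    ‖VV ℚ_[p] n 0‖ ≤ rh p ^ (s + 1) ∧
      ‖(4 * ((n + 2 + 0 : ℕ) : ℚ_[p]) - 1) * VV ℚ_[p] n 0 - 16 * (p : ℚ_[p]) ^ (s + 1)‖ ≤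
        rh p ^ (s + 4) := by
  obtain ⟨q, hq'⟩ : ∃ q : ℚ_[p], q = (p : ℚ_[p]) ^ (s + 1) := ⟨_, rfl⟩
  have hn : ‖q‖ = rh p ^ (s + 1) := by rw [hq', nrm_q]
  have h1 : q = 2 * n + 3 := by rw [hq']; exact_mod_cast hq
  have h2 := VV_zero n q h1
  have h3 := prod_one h5 (M := n + 1) (by omega) hq'
  generalize ∏ i ∈ range (n + 1), (1 - q ^ 2 / (4 * ((i : ℚ_[p]) + 1) ^ 2)) = A at h2 h3
  have hq1 : ‖q‖ ≤ 1 := hn ▸ pow_le_one₀ rh_pos.le rh_lt.le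
  have h4 : ‖(1 - q) * (1 + q) ^ 3‖ = 1 := by
    have a1 := shift (y := -q) (a := 1) (by rw [norm_neg, hn]) one_ne_zero (by omega)
    have a2 := shift (y := q) (a := 1) hn.le one_ne_zero (by omega)
    rw [Nat.cast_one, norm_one, add_comm] at a1 a2
    rw [norm_mul, norm_pow, sub_eq_add_neg, a1, a2]; norm_num
  have h16 : ‖(16 : ℚ_[p])‖ = 1 := n2p h5 4 (by norm_num)
  have hA : ‖A‖ ≤ 1 := by
    have := nadd (h3.trans (pow_le_one₀ rh_pos.le rh_lt.le)) (norm_one (α := ℚ_[p])).le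
    rwa [sub_add_cancel] at this
  constructor
  · have := congrArg norm h2
    rw [norm_mul, h4, mul_one, mul_comm, norm_mul, norm_mul, h16, one_mul, hn] at this
    rw [this]
    exact mul_le_of_le_one_left (pow_pos rh_pos _).le hA
  · have a1 : ((4 * ((n + 2 + 0 : ℕ) : ℚ_[p]) - 1) * VV ℚ_[p] n 0 - 16 * q) *
        ((1 - q) * (1 + q) ^ 3) = 16 * (q * ((2 * q + 1) * (A - 1) + (2 + q) * q ^ 3)) := by
      have : (4 * ((n + 2 + 0 : ℕ) : ℚ_[p]) - 1) = 2 * q + 1 := by rw [h1]; push_cast; ring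
      rw [this]
      linear_combination (2 * q + 1) * h2
    have a2 := congrArg norm a1
    rw [norm_mul _ (_ * _), h4, mul_one, norm_mul 16, h16, one_mul, norm_mul q, hn] at a2
    rw [← hq', a2, show s + 4 = s + 1 + 3 by ring, pow_add _ (s + 1)]
    refine mul_le_mul_of_nonneg_left (nadd (nmul (nadd (nmul (n2 h5).le hq1) (by simp)) h3)
      (nmul (nadd (n2 h5).le hq1) ?_)) (pow_pos rh_pos _).le
    rw [norm_pow, hn, ← pow_mul]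
    exact rh_anti (by omega)

theorem VV_ind (h5 : 5 ≤ p) (hq : p ^ (s + 1) = 2 * n + 3) (i : ℕ) (hi : i + 1 ≤ n) :
    ‖VV ℚ_[p] n (i + 1)‖ * (‖(DD (i + 2) : ℚ_[p])‖ ^ 2 *
      (‖((2 * i + 3 : ℕ) : ℚ_[p])‖ * ‖((i + 1 : ℕ) : ℚ_[p])‖)) ≤
      rh p ^ (4 * (s + 1)) * ‖(i.factorial : ℚ_[p])‖ ^ 2 := by
  have h1 : (2 * (n : ℚ_[p]) + 3) = (p : ℚ_[p]) ^ (s + 1) := by exact_mod_cast hq.symm
  have hn : ‖(2 * (n : ℚ_[p]) + 3)‖ = rh p ^ (s + 1) := by rw [h1, nrm_q]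
  have hn2 : ‖2 * (2 * (n : ℚ_[p]) + 3)‖ ≤ rh p ^ (s + 1) := nmul (n2 h5).le hn.le
  have key : ∀ j : ℕ, j + 1 ≤ n → ‖VV ℚ_[p] n (j + 1)‖ * (‖((j + 1 : ℕ) : ℚ_[p])‖ *
      ‖((2 * j + 3 : ℕ) : ℚ_[p])‖ ^ 3) = ‖VV ℚ_[p] n j‖ * (‖((2 * j + 1 : ℕ) : ℚ_[p])‖ *
      ‖2 * (n : ℚ_[p]) + 3 + 2 * j‖ ^ 3) := fun j hj => by
    have a1 := congrArg norm (VV_succ (K := ℚ_[p]) n j)
    have a2 := shift (a := 2 * j + 3) hn.le (by omega) (by omega)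
    have a3 := shift (a := 2 * j + 1) hn2 (by omega) (by omega)
    simp only [norm_mul, norm_pow] at a1
    push_cast at a2 a3 ⊢
    rw [a2, a3, n2 h5, one_mul] at a1
    exact a1
  induction i with
  | zero =>
    have a1 := key 0 hi
    have a2 := (head h5 hq).1
    have a3 : ‖(DD (0 + 2) : ℚ_[p])‖ ^ 2 ≤ 1 := pow_le_one₀ (norm_nonneg _) (nat_le _)
    simp only [mul_zero, zero_add, Nat.cast_one, norm_one, Nat.cast_ofNat, n3 h5, one_pow, mul_one,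
      one_mul, Nat.cast_zero, add_zero, hn, Nat.factorial_zero] at a1 a3 ⊢
    refine (mul_le_of_le_one_right (norm_nonneg _) a3).trans ?_
    rw [a1]
    calc _ ≤ rh p ^ (s + 1) * (rh p ^ (s + 1)) ^ 3 :=
          mul_le_mul_of_nonneg_right a2 (pow_pos (pow_pos rh_pos _) _).le
      _ = _ := by ring
  | succ i ih =>
    have a1 := key (i + 1) hi
    have a2 := ih (by omega)
    have a3 : ‖2 * (n : ℚ_[p]) + 3 + 2 * ((i + 1 : ℕ) : ℚ_[p])‖ = ‖((i + 1 : ℕ) : ℚ_[p])‖ := by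
      have := shift (a := 2 * (i + 1)) hn.le (by omega) (by omega)
      rw [Nat.cast_mul, Nat.cast_ofNat, norm_mul, n2 h5, one_mul] at this
      exact this
    rw [a3, show 2 * (i + 1) + 1 = 2 * i + 3 by ring] at a1
    rw [show i + 1 + 2 = i + 2 + 1 by ring, DD_succ, Nat.factorial_succ, Nat.cast_mul, Nat.cast_mul,
      norm_mul, norm_mul, show 2 * (i + 2) + 1 = 2 * (i + 1) + 3 by ring]
    have a4 := mul_le_mul_of_nonneg_right a2 (sq_nonneg ‖((i + 1 : ℕ) : ℚ_[p])‖)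
    calc _ = ‖VV ℚ_[p] n (i + 1 + 1)‖ * (‖((i + 1 + 1 : ℕ) : ℚ_[p])‖ *
          ‖((2 * (i + 1) + 3 : ℕ) : ℚ_[p])‖ ^ 3) * ‖(DD (i + 2) : ℚ_[p])‖ ^ 2 := by ring
      _ = _ := by rw [a1]; ring
      _ ≤ _ := a4
      _ = _ := by ring

theorem VV_le (h5 : 5 ≤ p) (hq : p ^ (s + 1) = 2 * n + 3) (i : ℕ) (hi : i + 1 ≤ n) :
    ‖VV ℚ_[p] n (i + 1)‖ ≤ rh p ^ (s + 4) := by
  have h0 := rh_pos (p := p)
  have h1 := fac_pos (p := p) i
  have h2 := pow_le_pow_left₀ (by positivity) (DD_ge h5 (s := s) (i := i) (by omega)) 2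
  have h3 := cop_ge (p := p) (s := s) (i := i) (by omega)
  have h4 := (mul_le_mul_of_nonneg_left (mul_le_mul h2 h3 (by positivity) (by positivity))
    (norm_nonneg _)).trans (VV_ind h5 hq i hi)
  refine le_of_mul_le_mul_right (h4.trans_eq ?_) (by positivity)
  ring

theorem T_one (h5 : 5 ≤ p) (hq : p ^ (s + 1) = 2 * n + 3) {J : ℕ} (hJ : J ≤ n)
    (hB : ‖BB ℚ_[p] (n + 1 + (J + 1))‖ ≤ rh p ^ (4 * (s + 1))) :
    ‖TT (PP 1) (n + 1 + (J + 1)) - 16 * (p : ℚ_[p]) ^ (s + 1)‖ ≤ rh p ^ (s + 4) := by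
  have h0 := (pow_pos (rh_pos (p := p)) (s + 4)).le
  have h1 := mul_left_cancel₀ (ph_ne n)
    ((chain (K := ℚ_[p]) n (n + 1 + (J + 1))).symm.trans (tail n (J + 1)))
  rw [sum_range_succ'] at h1
  rw [eq_sub_of_add_eq h1, sub_right_comm, add_sub_assoc]
  refine nsub (nadd (norm_sum_le_of_forall_le_of_nonneg h0 fun i hi => ?_) (head h5 hq).2)
    (norm_sum_le_of_forall_le_of_nonneg h0 fun l hl => termA h5 hB ?_)
  · have := mem_range.1 hi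
    exact nmul (nsub (nmul (n2p h5 2 (by norm_num)).le (nat_le _)) (by simp))
      (VV_le h5 hq i (by omega))
  · have := mem_range.1 hl
    omega

/-- the reduction functional on `x ^ (2 j) * PP n x` -/
def gg : ℕ → ℕ → ℤ
  | 0, 0 => 0
  | 0, n + 1 => 16 * ph n
  | j + 1, n => gg j (n + 1) + (4 * n + 3) ^ 2 * gg j n

section
variable {N : ℕ} (h5 : 5 ≤ p) (hB : ‖BB ℚ_[p] N‖ ≤ rh p ^ (4 * (s + 1)))
  (hT : ‖TT (PP 1) N - 16 * (p : ℚ_[p]) ^ (s + 1)‖ ≤ rh p ^ (s + 4))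
include h5 hB

theorem T_zero : ‖TT (PP (K := ℚ_[p]) 0) N‖ ≤ rh p ^ (s + 4) := by
  have h1 := congrArg norm (step (K := ℚ_[p]) 0 N)
  simp only [Nat.cast_zero, mul_zero, zero_mul, zero_add, one_pow, mul_one] at h1
  rw [norm_mul, n2p h5 (c := 16) 4 (by norm_num), one_mul] at h1
  rw [h1]
  exact nmul ((QQ_le h5 1 N).trans (by simp)) (hB.trans (rh_anti (by omega)))

theorem T_id : ‖TT (fun x : ℚ_[p] => x) N‖ ≤ rh p ^ (s + 4) := by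
  have h1 := congrArg norm (eq_sub_of_add_eq' (base (K := ℚ_[p]) N))
  rw [norm_mul, norm_neg, n2p h5 (c := 16) 4 (by norm_num), one_mul] at h1
  rw [h1]
  exact nsub (hB.trans (rh_anti (by omega)))
    (nmul (by rw [norm_neg, n2p h5 (c := 8) 3 (by norm_num)]) (T_zero h5 hB))

include hT

theorem T_gg (j : ℕ) : ∀ n : ℕ, 1 ≤ s ∨ n + j ≤ p →
    ‖TT (fun x => x ^ (2 * j) * PP n x) N - gg j n * (p : ℚ_[p]) ^ (s + 1)‖ ≤ rh p ^ (s + 4) := by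
  induction j with
  | zero =>
    intro n h
    simp only [mul_zero, pow_zero, one_mul]
    rcases n with _ | n
    · simpa [gg] using T_zero h5 hB
    · have h1 : TT (fun x => PP (n + 1) x) N - gg 0 (n + 1) * (p : ℚ_[p]) ^ (s + 1) =
          ph n * (TT (PP 1) N - 16 * (p : ℚ_[p]) ^ (s + 1)) + ∑ l ∈ range n, ph n *
            (QQ (l + 2) (4 * (N : ℚ_[p]) + 1) * BB ℚ_[p] N / (8 * (l + 1) * ph (l + 1))) := by
        rw [← mul_sum, show (fun x => PP (n + 1) x) = PP (K := ℚ_[p]) (n + 1) from rfl, chain, gg]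
        push_cast
        ring
      rw [h1]
      refine nadd (nmul (norm_intCast_le_one _ _) hT)
        (norm_sum_le_of_forall_le_of_nonneg (pow_pos rh_pos _).le fun l hl => ?_)
      obtain ⟨A, rfl⟩ : ∃ A, n = A + l + 1 := ⟨n - l - 1, by have := mem_range.1 hl; omega⟩
      exact termB h5 hB (by omega)
  | succ j ih =>
    intro n h
    have h1 : TT (fun x => x ^ (2 * (j + 1)) * PP n x) N - gg (j + 1) n * (p : ℚ_[p]) ^ (s + 1) =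
        (TT (fun x => x ^ (2 * j) * PP (n + 1) x) N - gg j (n + 1) * (p : ℚ_[p]) ^ (s + 1)) +
        (((4 * n + 3) ^ 2 : ℕ) : ℚ_[p]) *
          (TT (fun x => x ^ (2 * j) * PP n x) N - gg j n * (p : ℚ_[p]) ^ (s + 1)) := by
      have := TT_lin 1 ((4 * (n : ℚ_[p]) + 3) ^ 2) (fun x => x ^ (2 * j) * PP (n + 1) x)
        (fun x => x ^ (2 * j) * PP n x) N
      rw [show (fun x : ℚ_[p] => x ^ (2 * (j + 1)) * PP n x) = fun x => 1 * (x ^ (2 * j) *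
        PP (n + 1) x) + (4 * (n : ℚ_[p]) + 3) ^ 2 * (x ^ (2 * j) * PP n x) from
        funext fun x => by rw [PP_succ]; ring, this, gg]
      push_cast
      ring
    rw [h1]
    exact nadd (ih _ (by omega)) (nmul (nat_le _) (ih _ (by omega)))

theorem T_pow (a : ℕ) (h : 1 ≤ s ∨ a ≤ p + 1) :
    ‖TT (fun x => x ^ (2 * a + 1)) N - (∑ j ∈ range a, gg j 0 : ℤ) * (p : ℚ_[p]) ^ (s + 1)‖ ≤
      rh p ^ (s + 4) := by
  induction a with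
  | zero => simpa using T_id h5 hB
  | succ a ih =>
    have h1 := TT_lin 1 1 (fun x : ℚ_[p] => x ^ (2 * a + 1)) (fun x => x ^ (2 * a) * PP 0 x) N
    rw [show (fun x : ℚ_[p] => x ^ (2 * (a + 1) + 1)) = fun x => 1 * x ^ (2 * a + 1) +
      1 * (x ^ (2 * a) * PP 0 x) from funext fun x => by simp only [PP, CC, prod_range_zero]; ring,
      h1, sum_range_succ]
    convert nadd (ih (by omega)) (T_gg h5 hB hT a 0 (by omega)) using 2
    push_cast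
    ring

end

theorem S_cast (m N : ℕ) : ((S m N : ℚ) : ℚ_[p]) = TT (fun x => x ^ m) N := by
  have h : ∀ k : ℕ, (ascPochhammer ℚ k).eval (-1 / 2) = ∏ i ∈ range k, (-1 / 2 + (i : ℚ)) := by
    intro k
    induction k with
    | zero => simp
    | succ k ih => rw [ascPochhammer_succ_eval, prod_range_succ, ih]
  simp only [S, TT, tt, h]
  push_cast
  exact sum_congr rfl fun k _ => by ring

theorem cong_of {x y : ℚ} {e : ℕ} (h : ‖(x : ℚ_[p]) - y‖ ≤ rh p ^ e) : Cong x y p e := by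
  have h0 : (p : ℚ) ^ e ≠ 0 := pow_ne_zero _ (Nat.cast_ne_zero.2 hp.out.ne_zero)
  have h1 : ‖(((x - y) / (p : ℚ) ^ e : ℚ) : ℚ_[p])‖ ≤ 1 := by
    push_cast
    rw [norm_div, nrm_q]
    exact div_le_one_of_le₀ h (pow_pos rh_pos _).le
  have h2 := PadicInt.isUnit_iff.1 (PadicInt.isUnit_den _ h1)
  refine ⟨((x - y) / (p : ℚ) ^ e).num, ((x - y) / (p : ℚ) ^ e).den, fun h3 => ?_, ?_⟩
  · have := (PadicInt.norm_int_lt_one_iff_dvd _).2 h3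
    rw [Int.cast_natCast, h2] at this
    exact lt_irrefl _ this
  · rw [mul_div_assoc, Int.cast_natCast, Rat.num_div_den, mul_div_cancel₀ _ h0]

theorem main (m : ℕ) (hm : Odd m) : ∃ d : ℤ, ∀ p r : ℕ, p.Prime → 5 ≤ p → 1 ≤ r →
    (2 ≤ r ∨ m < 2 * p + 5) →
      Cong (S m ((p ^ r + 1) / 2)) ((d : ℚ) * (p : ℚ) ^ r) p (r + 3) ∧
        Cong (S m (p ^ r - 1)) ((d : ℚ) * (p : ℚ) ^ r) p (r + 3) := by
  obtain ⟨a, rfl⟩ := hm
  refine ⟨∑ j ∈ range a, gg j 0, fun p r hp h5 hr h => ?_⟩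
  have := Fact.mk hp
  obtain ⟨s, rfl⟩ : ∃ s, r = s + 1 := ⟨r - 1, by omega⟩
  obtain ⟨n, hq⟩ : ∃ n, p ^ (s + 1) = 2 * n + 3 := by
    obtain ⟨c, hc⟩ : Odd (p ^ (s + 1)) := (hp.odd_of_ne_two (by omega)).pow
    have : p ≤ p ^ (s + 1) := Nat.le_self_pow s.succ_ne_zero p
    exact ⟨c - 1, by omega⟩
  have h1 : (2 * (n : ℚ_[p]) + 3) = (p : ℚ_[p]) ^ (s + 1) := by exact_mod_cast hq.symm
  have key : ∀ J ≤ n, ‖BB ℚ_[p] (n + 1 + (J + 1))‖ ≤ rh p ^ (4 * (s + 1)) →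
      Cong (S (2 * a + 1) (n + 1 + (J + 1)))
        (((∑ j ∈ range a, gg j 0 : ℤ) : ℚ) * (p : ℚ) ^ (s + 1)) p (s + 1 + 3) := fun J hJ hB => by
    refine cong_of ?_
    rw [S_cast, Rat.cast_mul, Rat.cast_pow, Rat.cast_natCast, Rat.cast_intCast]
    exact T_pow h5 hB (T_one h5 hq hJ hB) a (by omega)
  have h4 : ∀ c : ℚ_[p], ‖c‖ ≤ 1 → ∀ k,
      ‖(c * (p : ℚ_[p]) ^ (s + 1)) ^ 4 * tt ℚ_[p] k‖ ≤ rh p ^ (4 * (s + 1)) := fun c hc k => by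
    rw [mul_comm, mul_comm 4, pow_mul]
    refine nmul (tt_le h5 k) ?_
    rw [norm_pow]
    exact pow_le_pow_left₀ (norm_nonneg _) (nmul hc (nrm_q _).le) 4
  constructor
  · rw [show (p ^ (s + 1) + 1) / 2 = n + 1 + (0 + 1) by omega]
    refine key 0 (Nat.zero_le n) ?_
    rw [BB]
    convert h4 2 (n2 h5).le (n + 1 + (0 + 1)) using 4
    rw [← h1]; push_cast; ring
  · rw [show p ^ (s + 1) - 1 = n + 1 + (n + 1) by omega]
    refine key n le_rfl ?_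
    rw [← tt_succ]
    convert h4 4 (n2p h5 2 (by norm_num)).le (n + 1 + (n + 1) + 1) using 4
    rw [← h1]; push_cast; ring

end Pool.Agent.P.MP_270153_nt.Pos
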